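import Pool.Agent.U663.SD.QTrip
import Pool.Agent.N906.QP.All

/-!
# The anatomy of the abc triples with a small radical

Let `2 < λ < 3`. The number of the abc triples `a + b = c ≤ X` with `rad (abc) ≤ c ^ λ` is
`X ^ (λ - 1 + o(1))`. We show that all but a proportion `exp (- η √(log X / log log X))` of them look
the same: each of the three members `n = a, b, c` has `rad n = c ^ (λ / 3 + o(1))` and
`n = c ^ (1 + o(1))`, the number of the primes `p` with `p ^ 2 ∣ n` is
`(1 + o(1)) √(2 (1 - λ / 3) log X / log log X)`, and the product of these primes is `X ^ o(1)`.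

So the defect is shared equally by the three members, and it comes from high powers of about
`√(log X / log log X)` small primes, not from squares of large primes.
-/

set_option autoImplicit false

open Filter Topology

namespace Pool.Agent.Results.MP_7aad9f_nt.AnatomyOfTriples

/-- the radical, the product of the primes dividing `n` -/
def rad (n : ℕ) : ℕ := ∏ p ∈ n.primeFactors, p

/-- the primes whose square divides `n` -/
def squared (n : ℕ) : Finset ℕ := n.primeFactors.filter fun p => p ^ 2 ∣ n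

/-- `t = (a, b, c)` is a triple of coprime positive integers with `a + b = c ≤ X` -/
def IsTriple (X : ℝ) (t : ℕ × ℕ × ℕ) : Prop :=
  0 < t.1 ∧ 0 < t.2.1 ∧ Nat.Coprime t.1 t.2.1 ∧ t.1 + t.2.1 = t.2.2 ∧ (t.2.2 : ℝ) ≤ X

/-- the triples with `c ≤ X` and `rad (abc) ≤ c ^ lam` -/
def Small (lam X : ℝ) : Set (ℕ × ℕ × ℕ) :=
  {t | IsTriple X t ∧ (rad (t.1 * t.2.1 * t.2.2) : ℝ) ≤ (t.2.2 : ℝ) ^ lam}

/-- the member `n` of a triple with largest member `c ≤ X` is typical, up to `ε` -/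
structure Typical (lam ε X : ℝ) (c n : ℕ) : Prop where
  /-- `c ^ (lam / 3 - ε) ≤ rad n` -/
  radical_lower : (c : ℝ) ^ (lam / 3 - ε) ≤ rad n
  /-- `rad n ≤ c ^ (lam / 3 + ε)` -/
  radical_upper : (rad n : ℝ) ≤ (c : ℝ) ^ (lam / 3 + ε)
  /-- `c ^ (1 - ε) ≤ n` -/
  size : (c : ℝ) ^ (1 - ε) ≤ n
  /-- the number of the primes `p` with `p ^ 2 ∣ n` -/
  number : |((squared n).card : ℝ) -
    √(2 * (1 - lam / 3) * (Real.log X / Real.log (Real.log X)))| ≤
      ε * √(Real.log X / Real.log (Real.log X))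
  /-- the product of the primes `p` with `p ^ 2 ∣ n` -/
  product : ((∏ p ∈ squared n, p : ℕ) : ℝ) ≤ X ^ ε

/-- the triples of `Small lam X` with a member that is not typical -/
def Atypical (lam ε X : ℝ) : Set (ℕ × ℕ × ℕ) :=
  {t | t ∈ Small lam X ∧ ¬ (Typical lam ε X t.2.2 t.1 ∧ Typical lam ε X t.2.2 t.2.1 ∧
    Typical lam ε X t.2.2 t.2.2)}

open Pool.Agent.N906.KG Pool.Agent.N348.QP Pool.Agent.U663.SD Pool.Agent.H691R3 Pool.Agent.W223.AK
open NumberField

theorem rad_pos (n : ℕ) : 0 < rad n :=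
  Finset.prod_pos fun _ hp => (Nat.prime_of_mem_primeFactors hp).pos

theorem rad_mul3 {a b : ℕ} (ha : 0 < a) (hb : 0 < b) (hab : Nat.Coprime a b) :
    rad (a * b * (a + b)) = rad a * rad b * rad (a + b) := by
  have h1 : Nat.Coprime (a * b) (a + b) := by
    refine Nat.Coprime.mul_left ?_ ?_
    · simpa using hab
    · simpa using hab.symm
  unfold rad
  rw [Nat.primeFactors_mul (by positivity) (by positivity), Finset.prod_union h1.disjoint_primeFactors,
    Nat.primeFactors_mul ha.ne' hb.ne', Finset.prod_union hab.disjoint_primeFactors]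

theorem small_finite (lam X : ℝ) : (Small lam X).Finite := by
  refine Set.Finite.subset (Finset.finite_toSet
    ((Finset.range (⌊X⌋₊ + 1)) ×ˢ ((Finset.range (⌊X⌋₊ + 1)) ×ˢ (Finset.range (⌊X⌋₊ + 1))))) ?_
  rintro ⟨a, b, c⟩ ⟨⟨h1, h2, h3, h4, h5⟩, -⟩
  simp only at h1 h2 h3 h4 h5
  have h6 : c ≤ ⌊X⌋₊ := Nat.le_floor h5
  simp only [Finset.coe_product, Finset.coe_range, Set.mem_prod, Set.mem_Iio]
  omega

/-- the upper bound for the number of the atypical triples -/
theorem atypical_le {lam ε : ℝ} (h1 : 2 < lam) (h2 : lam < 3) (hε : 0 < ε) :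
    ∃ g : ℝ, 0 < g ∧ ∃ X₀ : ℝ, ∀ X : ℝ, X₀ ≤ X → ((Atypical lam ε (Real.exp X)).ncard : ℝ) ≤
      Real.exp ((2 - (3 - lam)) * X + (3 * √((3 - lam) / 3) - g) * √(8 * X / Real.log X)) := by
  classical
  obtain ⟨g, hg, X₀, hX₀, h⟩ := few (K := ℚ) (q := 3) (κ₁ := 1) (by norm_num) le_rfl (basq_all ℚ)
    (cellq_all ℚ) (gupk_all ℚ) (Pool.Agent.N654.QP.bigq3 ℚ) al_a3 gd_a3 (κ := 3 - lam) (ε := ε)
    (C₀ := 3) (by linarith) (by linarith) hε (by norm_num)
  refine ⟨g, hg, X₀, fun X hX => ?_⟩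
  have hfin : (Atypical lam ε (Real.exp X)).Finite :=
    (small_finite lam (Real.exp X)).subset fun t ht => ht.1
  obtain ⟨φ, hφ⟩ : ∃ φ : ℕ × ℕ × ℕ → ℚ, φ = fun t => (t.1 : ℚ) / t.2.1 := ⟨_, rfl⟩
  have hinj : Set.InjOn φ (Atypical lam ε (Real.exp X)) := by
    rintro ⟨a, b, c⟩ ⟨⟨⟨g1, g2, g3, g4, -⟩, -⟩, -⟩ ⟨a', b', c'⟩ ⟨⟨⟨g1', g2', g3', g4', -⟩, -⟩, -⟩ hh
    rw [hφ] at hh
    simp only at g1 g2 g3 g4 g1' g2' g3' g4' hh
    obtain ⟨i1, i2⟩ := div_inj g2 g2' g3 g3' hh
    subst i1 i2 g4 g4'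
    rfl
  have h5 := h X (hfin.toFinset.image φ) hX ?_
  · rw [Finset.card_image_of_injOn (by rwa [Set.Finite.coe_toFinset]),
      ← Set.ncard_eq_toFinset_card _ hfin] at h5
    exact_mod_cast h5
  · intro x hx
    obtain ⟨t, ht, rfl⟩ := Finset.mem_image.1 hx
    rw [Set.Finite.mem_toFinset] at ht
    obtain ⟨a, b, c⟩ := t
    obtain ⟨⟨⟨g1, g2, g3, g4, g5⟩, g6⟩, g7⟩ := ht
    simp only at g1 g2 g3 g4 g5 g6 g7
    have hOf := of_a3 g1 g2
    obtain ⟨P, hP⟩ := Pool.Agent.N954.KG.isP_exists al_a3 ∅ hOf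
    have hhr := hr_eq g1 g2 g3
    have haR : (0 : ℝ) < a := by exact_mod_cast g1
    have hbR : (0 : ℝ) < b := by exact_mod_cast g2
    have hmax : 0 < max (a : ℝ) b := lt_max_of_lt_left haR
    have hc : (c : ℝ) = a + b := by rw [← g4]; push_cast; ring
    have hcR : (0 : ℝ) < c := by rw [hc]; linarith
    have hmc : max (a : ℝ) b ≤ c := by rw [hc]; exact max_le (by linarith) (by linarith)
    have hcm : (c : ℝ) ≤ 2 * max (a : ℝ) b := by
      rw [hc]
      linarith [le_max_left (a : ℝ) b, le_max_right (a : ℝ) b]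
    have hlog2 : Real.log 2 ≤ 1 := by linarith [Real.log_two_lt_d9]
    have hlc : Real.log c ≤ 1 + Real.log (max (a : ℝ) b) := by
      have : Real.log c ≤ Real.log 2 + Real.log (max (a : ℝ) b) := by
        rw [← Real.log_mul (by norm_num) hmax.ne']
        exact Real.log_le_log hcR hcm
      linarith
    have hlc' : Real.log (max (a : ℝ) b) ≤ Real.log c := Real.log_le_log hmax hmc
    obtain ⟨H, hH⟩ : ∃ H : ℝ, H = Real.log (max (a : ℝ) b) := ⟨_, rfl⟩
    rw [← hH] at hlc hlc' hhr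
    have hpow : ∀ s : ℝ, s ≤ 1 → s * Real.log c ≤ s * H + 1 := by
      intro s hs
      rcases le_total 0 s with h | h
      · have := mul_le_mul_of_nonneg_left hlc h
        nlinarith
      · have := mul_le_mul_of_nonpos_left hlc' h
        linarith
    rw [hφ]
    show Of a3 ((a : ℚ) / b) ∧ hr (aff ((a : ℚ) / b)) ≤ X ∧ ∃ P, Pool.Agent.N906.KG.IsP ∅ a3 ((a : ℚ) / b) P ∧
      tr P ≤ (((3 : ℕ) : ℝ) - (3 - lam)) * hr (aff ((a : ℚ) / b)) + 3 ∧
      Abn ((3 - lam) / ((3 : ℕ) : ℝ)) ε 3 X (hr (aff ((a : ℚ) / b))) P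
    rw [hhr]
    have hrl : ∀ l, rl (P l) = Real.log (rad (mm a b l)) := fun l => rl_eq g1 g2 g3 hP l
    refine ⟨hOf, ?_, P, hP, ?_, ?_⟩
    · rw [hH, Real.log_le_iff_le_exp hmax]
      exact hmc.trans g5
    · -- the radical
      have hcop : ∀ l l', l ≠ l' → Cop (P l) (P l') :=
        ((((basq_all ℚ) 3 a3 (by norm_num) al_a3).2 ∅ gd_a3).choose_spec.2 _ hOf).2.1 P hP |>.1
      rw [tr_eq hcop, Fin.sum_univ_three, hrl 0, hrl 1, hrl 2]
      have e0 : mm a b 0 = a := rfl
      have e1 : mm a b 1 = b := rfl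
      have e2 : mm a b 2 = a + b := rfl
      rw [e0, e1, e2]
      have p1 : (0 : ℝ) < rad a := by exact_mod_cast rad_pos a
      have p2 : (0 : ℝ) < rad b := by exact_mod_cast rad_pos b
      have p3 : (0 : ℝ) < rad (a + b) := by exact_mod_cast rad_pos (a + b)
      rw [← Real.log_mul p1.ne' p2.ne', ← Real.log_mul (by positivity) p3.ne']
      have k1 : (rad a : ℝ) * rad b * rad (a + b) ≤ (c : ℝ) ^ lam := by
        rw [← g4, rad_mul3 g1 g2 g3] at g6
        rw [← g4]
        push_cast at g6 ⊢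
        exact g6
      have k2 := Real.log_le_log (by positivity) k1
      rw [Real.log_rpow hcR] at k2
      have k3 : lam * Real.log c ≤ lam * (1 + H) := mul_le_mul_of_nonneg_left hlc (by linarith)
      push_cast
      linarith
    · -- a member is not typical
      obtain ⟨l, hl⟩ : ∃ l, ¬ Typical lam ε (Real.exp X) c (mm a b l) := by
        by_contra hcon
        push Not at hcon
        refine g7 ⟨hcon 0, hcon 1, ?_⟩
        have := hcon 2
        have e2 : mm a b 2 = c := g4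
        rwa [e2] at this
      refine ⟨l, ?_⟩
      have hb' : 1 - (3 - lam) / ((3 : ℕ) : ℝ) = lam / 3 := by push_cast; ring
      rw [hb']
      by_contra hno
      push Not at hno
      obtain ⟨n1, n2, -, n4, n5⟩ := hno
      apply hl
      have hrp : (0 : ℝ) < rad (mm a b l) := by exact_mod_cast rad_pos _
      have hmp : (0 : ℝ) < (mm a b l : ℕ) := by
        exact_mod_cast Nat.pos_of_ne_zero (mm_ne g1 g2 l)
      refine ⟨?_, ?_, ?_, ?_, ?_⟩
      · rw [← Real.log_le_log_iff (Real.rpow_pos_of_pos hcR _) hrp, Real.log_rpow hcR, ← hrl l]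
        have k1 := hpow (lam / 3 - ε) (by linarith)
        have k2 : -(rl (P l) - lam / 3 * H) ≤ |rl (P l) - lam / 3 * H| := neg_le_abs _
        linarith
      · rw [← Real.log_le_log_iff hrp (Real.rpow_pos_of_pos hcR _), Real.log_rpow hcR, ← hrl l]
        have k1 : (lam / 3 + ε) * H ≤ (lam / 3 + ε) * Real.log c :=
          mul_le_mul_of_nonneg_left hlc' (by linarith)
        have k2 : rl (P l) - lam / 3 * H ≤ |rl (P l) - lam / 3 * H| := le_abs_self _
        linarith
      · rw [← Real.log_le_log_iff (Real.rpow_pos_of_pos hcR _) hmp, Real.log_rpow hcR,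
          ← len_eq g1 g2 g3 hP l]
        have k1 := hpow (1 - ε) (by linarith)
        linarith
      · rw [sqf_card g1 g2 g3 hP l] at n4
        rw [Real.log_exp]
        have e5 : 2 * ((3 - lam) / ((3 : ℕ) : ℝ)) * X / Real.log X =
            2 * (1 - lam / 3) * (X / Real.log X) := by
          push_cast
          ring
        rw [e5] at n4
        show |((sqp (mm a b l)).card : ℝ) - _| ≤ _
        linarith
      · rw [rl_sqf g1 g2 g3 hP l] at n5
        show ((∏ p ∈ sqp (mm a b l), p : ℕ) : ℝ) ≤ Real.exp X ^ ε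
        have k1 : (0 : ℝ) < ((∏ p ∈ sqp (mm a b l), p : ℕ) : ℝ) := by
          have : 0 < ∏ p ∈ sqp (mm a b l), p := Finset.prod_pos fun p hp =>
            (Nat.prime_of_mem_primeFactors (Finset.mem_filter.1 hp).1).pos
          exact_mod_cast this
        rw [← Real.log_le_log_iff k1 (Real.rpow_pos_of_pos (Real.exp_pos _) _),
          Real.log_rpow (Real.exp_pos _), Real.log_exp]
        linarith

/-- the lower bound for the number of all triples with a small radical -/
theorem small_ge {lam ε : ℝ} (h1 : 2 < lam) (h2 : lam < 3) (hε : 0 < ε) (hε1 : ε < 1) :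
    ∃ X₀ : ℝ, ∀ X : ℝ, X₀ ≤ X →
      Real.exp ((2 - (3 - lam)) * X + (1 - ε) * (3 * √((3 - lam) / 3) * √(8 * X / Real.log X))) ≤
        ((Small lam (Real.exp (X + Real.log 2))).ncard : ℝ) := by
  classical
  have hA : ∑ _l : Fin 3, lam / 3 = lam := by
    rw [Finset.sum_const, Finset.card_univ, Fintype.card_fin, nsmul_eq_mul]
    push_cast
    ring
  obtain ⟨X₀, -, h⟩ := lo (loj_all ℚ) (A := fun _ => lam / 3) (fun _ => by linarith)
    (fun _ => by linarith) (by rw [hA]; exact h1) (by rw [hA]; exact h2) hε hε1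
  refine ⟨X₀, fun X hX => ?_⟩
  have k1 := h X hX
  rw [hA, Finset.sum_const, Finset.card_univ, Fintype.card_fin, nsmul_eq_mul] at k1
  have e1 : √(8 * (1 - lam / 3) * X / Real.log X) = √((3 - lam) / 3) * √(8 * X / Real.log X) := by
    rw [← Real.sqrt_mul (by linarith)]
    congr 1
    ring
  rw [e1] at k1
  have e2 : (2 - (3 - lam)) * X + (1 - ε) * (3 * √((3 - lam) / 3) * √(8 * X / Real.log X)) =
      (lam - 1) * X + (1 - ε) * (((3 : ℕ) : ℝ) * (√((3 - lam) / 3) * √(8 * X / Real.log X))) := by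
    push_cast
    ring
  rw [e2]
  refine k1.trans ?_
  have hsub : Tri (fun _ => lam / 3) (Real.exp (X + Real.log 2)) ⊆
      Small lam (Real.exp (X + Real.log 2)) := by
    rintro ⟨a, b, c⟩ ⟨g1, g2, g3, g4, g5, g6, g7, g8⟩
    simp only at g1 g2 g3 g4 g5 g6 g7 g8
    refine ⟨⟨g1, g2, g3, g4, g5⟩, ?_⟩
    show (rad (a * b * c) : ℝ) ≤ (c : ℝ) ^ lam
    have hcR : (0 : ℝ) < c := by
      have : 0 < c := by omega
      exact_mod_cast this
    rw [← g4, rad_mul3 g1 g2 g3, g4]
    push_cast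
    have r1 : (rad a : ℝ) ≤ (c : ℝ) ^ (lam / 3) := g6
    have r2 : (rad b : ℝ) ≤ (c : ℝ) ^ (lam / 3) := g7
    have r3 : (rad c : ℝ) ≤ (c : ℝ) ^ (lam / 3) := g8
    have e3 : (c : ℝ) ^ lam = (c : ℝ) ^ (lam / 3) * (c : ℝ) ^ (lam / 3) * (c : ℝ) ^ (lam / 3) := by
      rw [← Real.rpow_add hcR, ← Real.rpow_add hcR]
      congr 1
      ring
    rw [e3]
    have p0 : (0 : ℝ) ≤ (c : ℝ) ^ (lam / 3) := (Real.rpow_pos_of_pos hcR _).le
    exact mul_le_mul (mul_le_mul r1 r2 (Nat.cast_nonneg _) p0) r3 (Nat.cast_nonneg _)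
      (mul_nonneg p0 p0)
  exact_mod_cast Set.ncard_le_ncard hsub (small_finite _ _)

/-- **The anatomy of the triples with a small radical.** For `2 < lam < 3` and `ε > 0` there is `η > 0`
such that for all large `X` at most `exp (- η √(log X / log log X)) M(X)` of the `M(X)` triples with
`c ≤ X` and `rad (abc) ≤ c ^ lam` have a member which is not typical up to `ε`; `M(X)` is finite. -/
theorem result (lam ε : ℝ) (h2 : 2 < lam) (h3 : lam < 3) (hε : 0 < ε) :
    (∀ X : ℝ, (Small lam X).Finite) ∧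
    ∃ η : ℝ, 0 < η ∧ ∀ᶠ X : ℝ in atTop, ((Atypical lam ε X).ncard : ℝ) ≤
      Real.exp (-(η * √(Real.log X / Real.log (Real.log X)))) * ((Small lam X).ncard : ℝ) := by
  refine ⟨small_finite lam, ?_⟩
  obtain ⟨g, hg, X₁, hX₁⟩ := atypical_le h2 h3 hε
  have hs : 0 < 3 * √((3 - lam) / 3) := by
    have : 0 < √((3 - lam) / 3) := Real.sqrt_pos.2 (by linarith)
    positivity
  obtain ⟨η, hη, hev⟩ := ratio (κ := 3 - lam) (s := 3 * √((3 - lam) / 3))
    (g := min g (3 * √((3 - lam) / 3))) (L₀ := Real.log 2) (by linarith) (lt_min hg hs)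
    (min_le_right _ _) (Real.log_nonneg (by norm_num))
    (M := fun X => ((Atypical lam ε (Real.exp X)).ncard : ℝ))
    (N := fun X => ((Small lam (Real.exp X)).ncard : ℝ))
    ⟨X₁, fun X hX => by
      refine (hX₁ X hX).trans ?_
      have k1 : (3 * √((3 - lam) / 3) - g) * √(8 * X / Real.log X) ≤
          (3 * √((3 - lam) / 3) - min g (3 * √((3 - lam) / 3))) * √(8 * X / Real.log X) :=
        mul_le_mul_of_nonneg_right (by linarith [min_le_left g (3 * √((3 - lam) / 3))])
          (Real.sqrt_nonneg _)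
      have k2 := Real.exp_le_exp.2 (add_le_add_right k1 ((2 - (3 - lam)) * X))
      linarith⟩
    (fun ε' hε' hε1 => small_ge h2 h3 hε' hε1)
  refine ⟨η, hη, ?_⟩
  filter_upwards [Real.tendsto_log_atTop.eventually hev, eventually_gt_atTop (0 : ℝ)] with X hX h0
  simp only [Real.exp_log h0] at hX
  exact hX

end Pool.Agent.Results.MP_7aad9f_nt.AnatomyOfTriples
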