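import Mathlib
import Pool.Agent.U663.AB.Main8

namespace Pool.Agent.Results.MP_7aad9f_nt.ExceptionsBelowTwo

/-- the radical `R(m)`: the product of the distinct primes dividing `m` -/
def R (m : ℕ) : ℕ := ∏ p ∈ m.primeFactors, p

/-- the triples `(a, b, c)` of coprime positive integers with `a + b = c ≤ X` and
`R (abc) ≤ B * c ^ lam` -/
def Exceptions (B lam : ℝ) (X : ℕ) : Set (ℕ × ℕ × ℕ) :=
  {t | 0 < t.1 ∧ 0 < t.2.1 ∧ Nat.Coprime t.1 t.2.1 ∧ t.1 + t.2.1 = t.2.2 ∧ t.2.2 ≤ X ∧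
    (R (t.1 * t.2.1 * t.2.2) : ℝ) ≤ B * (t.2.2 : ℝ) ^ lam}

/-- the exponent, a continuous piecewise linear function -/
noncomputable def F (lam : ℝ) : ℝ :=
  if lam ≤ 1 / 2 then 4 * lam / 7
  else if lam ≤ 1 then (52 * lam + 4) / 105
  else if lam ≤ 13 / 12 then (9 * lam - 1) / 15
  else if lam ≤ 5 / 4 then (12 * lam + 1) / 24
  else if lam ≤ 35 / 24 then (36 * lam - 5) / 60
  else if lam ≤ 41 / 24 then (8 * lam + 1) / 16
  else if lam ≤ 2 then (2 * lam + 3) / 7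
  else lam - 1

/-- For all real `lam > 0`, `B` and `δ > 0` there is `C` such that for every `X ≥ 1` at most
`C * X ^ (F lam + δ)` triples `(a, b, c)` of coprime positive integers with `a + b = c ≤ X` have
`R (abc) ≤ B * c ^ lam`. The exponent is less than `1` for every `lam < 2`. For `lam = 1` it is
`8 / 15`. -/
theorem result :
    (∀ lam : ℝ, lam < 2 → F lam < 1) ∧
    ∀ lam B δ : ℝ, 0 < lam → 0 < δ →
      ∃ C : ℝ, ∀ X : ℕ, 1 ≤ X →
        (Exceptions B lam X).Finite ∧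
        ((Exceptions B lam X).ncard : ℝ) ≤ C * (X : ℝ) ^ (F lam + δ) := by
  refine ⟨fun lam h => Pool.Agent.U663.AB.Fy_lt lam h, fun lam B δ hlam hδ => ?_⟩
  obtain ⟨C, hC⟩ := Pool.Agent.U663.AB.count_FyB B lam δ hlam hδ
  exact ⟨C, fun X hX => ⟨Pool.Agent.W221.ABC7.excB_finite B lam X, hC X hX⟩⟩

end Pool.Agent.Results.MP_7aad9f_nt.ExceptionsBelowTwo
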