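import Pool.Agent.S821.Laws
import Pool.Agent.Results.MP_7aad9f_nt.MultiplesThreeHalves

/-!
# The least radical of the abc triples divisible by values of arithmetic functions

For an integer `n` consider ALL abc triples `(a, b, c)`, of whatever height, such that `n` divides the product `abc`. For almost
all `m` and for the values `n = f(m)` of a multiplicative function such as Euler's function or the sum of the divisors, and also
for all `n` in the windows `|n - f(m)| ≤ f(m) ^ κ`, `κ < ε / 5`, the least radical of these triples is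
`max (n ^ (3/2), n P(n))` up to a factor `n ^ (± ε)`, where `P(n)` is the largest prime factor of `n`. In particular all abc
triples, of whatever height, whose product is divisible by `n`, have a radical larger than `n ^ (3/2 - ε)`. The same along the
orbits of Euler's function, for `K(m)` iterates, `K(m) → ∞`, for compositions of additive functions, and for powers `α v ^ d` of
such values with `d (1 - ε / 5) + κ < 1`. The values form thin sets (of density zero for Euler's function) and are taken with very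
large multiplicities, and so this does not follow from the number of the exceptions.

Proof. At most `C X ^ (1 - ε / 5)` of the integers up to `X` violate this (starting theorem `MultiplesThreeHalves`); values of
arithmetic functions avoid sets with a power saving (`Pool.Agent.S821.Laws`, from the starting library).
-/

set_option autoImplicit false

open Finset Filter

namespace Pool.Agent.Results.MP_7aad9f_nt.LeastRadicalNearValues

open Pool.Agent.N733.TG (LM Expanding)
open Pool.Agent.N760.IT (orb)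
open Pool.Agent.N826.IT.Orb (AlmostAll)
open Pool.Agent.N375.AV (PD comp)

/-- the product of the primes dividing `n` -/
def radical (n : ℕ) : ℕ := ∏ p ∈ n.primeFactors, p

/-- `(a, b, c)` is an abc triple: positive integers, `a + b = c`, `a` and `b` coprime -/
def Triple (a b c : ℕ) : Prop := 0 < a ∧ 0 < b ∧ a + b = c ∧ Nat.gcd a b = 1

/-- the larger of `n ^ (3/2)` and `n P(n)`, `P(n)` the largest prime factor of `n` -/
noncomputable def M (n : ℕ) : ℝ := max ((n : ℝ) ^ (3 / 2 : ℝ)) ((n : ℝ) * ((n.primeFactors.sup id : ℕ) : ℝ))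

/-- every abc triple (of whatever height) with `n ∣ a b c` has radical larger than `M(n) n ^ (-ε)`, and one of them has radical
at most `M(n) n ^ ε` -/
def Regular (ε : ℝ) (n : ℕ) : Prop :=
  (∀ a b c : ℕ, Triple a b c → n ∣ a * b * c → M n * (n : ℝ) ^ (-ε) < (radical (a * b * c) : ℝ)) ∧
  ∃ a b c : ℕ, Triple a b c ∧ n ∣ a * b * c ∧ (radical (a * b * c) : ℝ) ≤ M n * (n : ℝ) ^ ε

/-- every integer `n ≥ 1` with `|n - x| ≤ v ^ κ` is regular -/
def AllRegular (ε κ : ℝ) (v : ℕ) (x : ℝ) : Prop :=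
  ∀ n : ℕ, 1 ≤ n → |(n : ℝ) - x| ≤ (v : ℝ) ^ κ → Regular ε n

/-- **The least radical of the triples divisible by values of arithmetic functions.** Let `0 < ε ≤ 1`, let `G` have steps
`≥ const > 0` and growth at most `v ^ d` (`Expanding G d`), `κ ≥ 0` and `d (1 - ε / 5) + κ < 1`. (1) For `f` multiplicative and
positive, of at most polynomial growth, with `f p ≤ C p` at the large primes and injective there (`LM f`), and every `U`: for all
`m ≤ N` but `N / (log N)^U`, `N` large, all integers `n ≥ 1` with `|n - G (f m)| ≤ f(m) ^ κ` are regular: the least radical of the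
abc triples with `n ∣ abc`, of whatever height, is `max (n ^ (3/2), n P(n))` up to a factor `n ^ (± ε)`. (2) The same for
`f(φ_k(m))` in the place of `f(m)`, for almost all `m`, for all `k ≤ K(m)`, `φ_k` the `k`-th iterate of Euler's function,
`K(m) → ∞`. (3) For `F = f_1 ∘ ⋯ ∘ f_r`, the `f_i` dominated by the largest prime factor (`PD`), the same for all `m ≤ N` but
`K N exp (- c (log N) ^ (1 / (r + 1)))`. (4) Examples of such functions. -/
theorem result :
    (∀ ε : ℝ, 0 < ε → ε ≤ 1 → ∀ (G : ℕ → ℝ) (d : ℝ), Expanding G d → ∀ κ : ℝ, 0 ≤ κ → d * (1 - ε / 5) + κ < 1 →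
      (∀ f : ℕ → ℕ, LM f → ∀ U : ℕ, ∃ N₀ : ℕ, ∀ N : ℕ, N₀ ≤ N →
        ({m : ℕ | 1 ≤ m ∧ m ≤ N ∧ ¬ AllRegular ε κ (f m) (G (f m))}.ncard : ℝ) ≤ N / Real.log N ^ U) ∧
      (∀ f : ℕ → ℕ, LM f → ∃ K : ℕ → ℕ, Tendsto K atTop atTop ∧
        AlmostAll (fun m => ∀ k ≤ K m, AllRegular ε κ (orb f k m) (G (orb f k m)))) ∧
      (∀ fs : List (ℕ → ℕ), (∀ f ∈ fs, PD f) → ∃ c K : ℝ, 0 < c ∧ ∀ N : ℕ, 1 ≤ N →
        ({m : ℕ | 1 ≤ m ∧ m ≤ N ∧ ¬ AllRegular ε κ (comp fs m) (G (comp fs m))}.ncard : ℝ) ≤
          K * N * Real.exp (-(c * Real.log N ^ ((1 : ℝ) / (fs.length + 1)))))) ∧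
    (LM (fun m => m) ∧ LM Nat.totient ∧ LM (fun m => ∑ d ∈ m.divisors, d)) ∧
    ((∀ f : ℕ → ℕ, (∀ a b : ℕ, Nat.Coprime a b → f (a * b) = f a + f b) →
      (∃ C : ℕ, ∀ q j : ℕ, q.Prime → 1 ≤ j → f (q ^ j) ≤ C * q ^ j) →
      (∃ P : ℕ, ∀ p q : ℕ, p.Prime → q.Prime → P ≤ p → P ≤ q → f p = f q → p = q) → PD f) ∧
      PD (fun n => n.primeFactors.sup id) ∧ PD (fun n => sInf {k : ℕ | n ∣ k.factorial})) ∧
    ∀ α d : ℝ, 0 < α → 1 ≤ d → Expanding (fun v => α * (v : ℝ) ^ d) d := by
  refine ⟨fun ε hε hε1 G d hG κ hκ h1 => ?_, Pool.Agent.S821.Laws.examples⟩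
  obtain ⟨C, hC⟩ := Pool.Agent.Results.MP_7aad9f_nt.MultiplesThreeHalves.result.1 ε hε hε1
  obtain ⟨l1, l2, l3⟩ := Pool.Agent.S821.Laws.laws (fun _ => True) (Regular ε) (s := 1 - ε / 5) (by linarith)
    (fun δ hδ => by
      refine ⟨|C|, fun X hX => ?_⟩
      have hX1 : (1 : ℝ) ≤ X := by exact_mod_cast hX
      have h2 : {t : ℕ | 1 ≤ t ∧ t ≤ X ∧ True ∧ ¬ Regular ε t} =
          {t : ℕ | 1 ≤ t ∧ t ≤ X ∧ ¬ Pool.Agent.Results.MP_7aad9f_nt.MultiplesThreeHalves.Regular ε t} := by
        ext t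
        simp only [true_and]
        exact Iff.rfl
      rw [h2]
      calc ({t : ℕ | 1 ≤ t ∧ t ≤ X ∧ ¬ Pool.Agent.Results.MP_7aad9f_nt.MultiplesThreeHalves.Regular ε t}.ncard : ℝ)
          ≤ C * (X : ℝ) ^ (1 - ε / 5) := hC X hX
        _ ≤ |C| * (X : ℝ) ^ (1 - ε / 5) := mul_le_mul_of_nonneg_right (le_abs_self C) (by positivity)
        _ ≤ |C| * (X : ℝ) ^ (1 - ε / 5 + δ) :=
            mul_le_mul_of_nonneg_left (Real.rpow_le_rpow_of_exponent_le hX1 (by linarith)) (abs_nonneg C)) hG hκ h1
  refine ⟨fun f hf U => ?_, fun f hf => ?_, fun fs hfs => ?_⟩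
  · simpa only [AllRegular, true_implies] using l1 f hf U
  · simpa only [AllRegular, true_implies] using l2 f hf
  · simpa only [AllRegular, true_implies] using l3 fs hfs

end Pool.Agent.Results.MP_7aad9f_nt.LeastRadicalNearValues
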