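import Mathlib
import Pool.Agent.U964.ML.Trip

/-!
# The abc inequality for all triples with two members which have one exponent, the exponent being arbitrary

Let `S` be a finite set of primes. We prove the abc inequality, with the exponent `1 + ε` of the conjecture,

`c ≤ K rad (a b c) ^ (1 + ε)`,

for ALL triples `a + b = c` of coprime positive integers such that two members `x`, `y` are of the form
`s u ^ n` with `u` square-free and `s` composed of primes of `S` (`n ≥ 1` arbitrary, the same for `x` and `y`), and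
the third member is square-free, or more generally of the form `z ≤ B rad z`. The constant `K` depends on
`S`, `B` and `ε` only, not on `n`; for `n` large in terms of `S` and `ε` the numbers `u` need not be
square-free. With exponents in `{0, n, 2 n, …, k n}` and `z ≤ B (rad z) ^ k` we get `c ≤ K rad (a b c) ^ (k + ε)`.

The proof combines a lower bound for linear forms in logarithms of rational numbers which is linear in the
height of the number with coefficient `n` (`U964.ML`), for large `n`, and Ridout's theorem near the algebraic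
numbers which are roots of order `n` of numbers composed of primes of `S`, for small `n`.
-/

set_option autoImplicit false

namespace Pool.Agent.Results.MP_7aad9f_nt.OneExponentTriples

/-- the product of the distinct primes dividing `m` -/
def radical (m : ℕ) : ℕ := ∏ q ∈ m.primeFactors, q

/-- coprime positive integers with `a + b = c` -/
def IsTriple (a b c : ℕ) : Prop := 1 ≤ a ∧ 1 ≤ b ∧ Nat.Coprime a b ∧ a + b = c

/-- `x`, `y` are two members of the triple `(a, b, c)` and `z` is the third member -/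
def Members (a b c x y z : ℕ) : Prop :=
  (x = a ∧ y = b ∧ z = c) ∨ (x = a ∧ y = c ∧ z = b) ∨ (x = b ∧ y = c ∧ z = a)

/-- all exponents in the factorisation of `w` at the primes outside `S` are divisible by `n` -/
def Multiples (S : Finset ℕ) (n w : ℕ) : Prop :=
  ∀ q : ℕ, q.Prime → q ∉ S → n ∣ w.factorization q

/-- all exponents in the factorisation of `w` at the primes outside `S` are at most `e` -/
def ExponentsLe (S : Finset ℕ) (e w : ℕ) : Prop :=
  ∀ q : ℕ, q.Prime → q ∉ S → w.factorization q ≤ e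

theorem result (S : Finset ℕ) (k : ℕ) (hk : 1 ≤ k) (B ε : ℝ) (hε : 0 < ε) :
    ∃ (K : ℝ) (N : ℕ), ∀ a b c x y z n : ℕ, IsTriple a b c → Members a b c x y z → 1 ≤ n →
      Multiples S n (x * y) → (N ≤ n ∨ ExponentsLe S (k * n) (x * y)) →
      (z : ℝ) ≤ B * (radical z : ℝ) ^ k →
      (c : ℝ) ≤ K * (radical (a * b * c) : ℝ) ^ ((k : ℝ) + ε) := by
  have hkr : (1:ℝ) ≤ k := by exact_mod_cast hk
  obtain ⟨η, hη⟩ : ∃ η : ℝ, η = ε / (k + ε) := ⟨_, rfl⟩
  have hη0 : 0 < η := by rw [hη]; positivity
  have hη1 : η < 1 := by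
    rw [hη, div_lt_one (by linarith)]
    linarith
  obtain ⟨K1, N, hK1, h⟩ := Pool.Agent.U964.ML.trip S 1 1 k le_rfl le_rfl η hη0 hη1
  obtain ⟨B1, hB1⟩ : ∃ B1 : ℝ, B1 = max B 1 := ⟨_, rfl⟩
  have hB11 : 1 ≤ B1 := by rw [hB1]; exact le_max_right _ _
  have hBB1 : B ≤ B1 := by rw [hB1]; exact le_max_left _ _
  obtain ⟨G, hG⟩ : ∃ G : ℝ, G = K1 * B1 := ⟨_, rfl⟩
  have hG1 : 1 ≤ G := by rw [hG]; nlinarith
  have h1η : 0 < 1 - η := by linarith
  have hinv : (k:ℝ) * (1 / (1 - η)) = k + ε := by
    have : 1 - η = k / (k + ε) := by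
      rw [hη]
      field_simp
      ring
    rw [this]
    field_simp
  refine ⟨G ^ (1 / (1 - η)), N, ?_⟩
  intro a b c x y z n ht hm hn hmul hle hz
  obtain ⟨ha, hb, hab, hc⟩ := ht
  have hac : Nat.Coprime a c := by rw [← hc]; simpa using hab
  have hbc : Nat.Coprime b c := by rw [← hc]; simpa using hab.symm
  have hrad : ∀ m : ℕ, radical m = Pool.Agent.U964.ML.rad m := fun _ => rfl
  have hradabc : radical (a * b * c) = radical a * radical b * radical c := by
    rw [hrad, hrad, hrad, hrad, Pool.Agent.U964.ML.rad_mul (Nat.Coprime.mul_left hac hbc),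
      Pool.Agent.U964.ML.rad_mul hab]
  have hr1 : ∀ m : ℕ, (1:ℝ) ≤ (radical m : ℝ) := fun m => by
    exact_mod_cast Pool.Agent.U964.ML.rad_pos m
  obtain ⟨R, hR⟩ : ∃ R : ℝ, R = (radical (a * b * c) : ℝ) := ⟨_, rfl⟩
  have hR1 : 1 ≤ R := by rw [hR]; exact hr1 _
  have hR0 : 0 < R := by linarith
  rw [← hR]
  have hcr : (1:ℝ) ≤ c := by exact_mod_cast (by omega : 1 ≤ c)
  -- the main inequality
  have key : (c:ℝ) ^ (1 - η) ≤ G * R ^ k := by
    have main : ∀ u v w : ℕ, 1 ≤ u → 1 ≤ w → Nat.Coprime u v → v = c → u + w = v →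
        Multiples S n (u * v) → (N ≤ n ∨ ExponentsLe S (k * n) (u * v)) →
        (w : ℝ) ≤ B * (radical w : ℝ) ^ k →
        radical (a * b * c) = radical w * radical (u * v) → (c:ℝ) ^ (1 - η) ≤ G * R ^ k := by
      intro u v w hu hw huv hvc huw hM hE hwB hrr
      have h1 := h n hn u v hu (by omega) huv (by omega) hM hE (v:ℝ)
        (by exact_mod_cast (by omega : u ≤ v)) le_rfl (Or.inr rfl)
      have e1 : |((1 : ℕ) : ℝ) * (u:ℝ) - ((1 : ℕ) : ℝ) * (v:ℝ)| = w := by
        have e2 : (v:ℝ) = u + w := by exact_mod_cast huw.symm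
        rw [e2]
        push_cast
        have e3 : (1:ℝ) * u - 1 * (u + w) = -w := by ring
        rw [e3, abs_neg]
        exact abs_of_nonneg (Nat.cast_nonneg _)
      rw [e1, hvc] at h1
      have e4 : (Pool.Agent.U964.ML.rad (u * c) : ℝ) = radical (u * v) := by rw [hvc]; rfl
      rw [e4] at h1
      have e5 : (w:ℝ) ≤ B1 * (radical w : ℝ) ^ k :=
        hwB.trans (mul_le_mul_of_nonneg_right hBB1 (by positivity))
      have e6 : R = (radical w : ℝ) * radical (u * v) := by
        rw [hR, hrr]
        push_cast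
        rfl
      calc (c:ℝ) ^ (1 - η) ≤ K1 * ((w:ℝ) * (radical (u * v) : ℝ) ^ k) := h1
        _ ≤ K1 * ((B1 * (radical w : ℝ) ^ k) * (radical (u * v) : ℝ) ^ k) := by gcongr
        _ = G * R ^ k := by rw [hG, e6, mul_pow]; ring
    rcases hm with ⟨hx, hy, hz'⟩ | ⟨hx, hy, hz'⟩ | ⟨hx, hy, hz'⟩
    · -- the third member is the sum
      rw [hz'] at hz
      have e1 : (c:ℝ) ^ (1 - η) ≤ c := by
        calc (c:ℝ) ^ (1 - η) ≤ (c:ℝ) ^ (1:ℝ) := Real.rpow_le_rpow_of_exponent_le hcr (by linarith)
          _ = c := Real.rpow_one _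
      have e2 : (radical c : ℝ) ≤ R := by
        rw [hR, hradabc]
        push_cast
        have := hr1 a
        have := hr1 b
        have := hr1 c
        have h5 : (1:ℝ) ≤ (radical a : ℝ) * radical b := by nlinarith
        nlinarith
      have e3 : (0:ℝ) ≤ (radical c : ℝ) := Nat.cast_nonneg _
      calc (c:ℝ) ^ (1 - η) ≤ c := e1
        _ ≤ B * (radical c : ℝ) ^ k := hz
        _ ≤ G * (radical c : ℝ) ^ k := by
            gcongr
            rw [hG]
            nlinarith
        _ ≤ G * R ^ k := by gcongr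
    · subst hx hy hz'
      refine main x y z ha hb hac rfl (by omega) hmul hle hz ?_
      rw [hradabc, hrad (x * y), Pool.Agent.U964.ML.rad_mul hac, ← hrad, ← hrad]
      ring
    · subst hx hy hz'
      refine main x y z hb ha hbc rfl (by omega) hmul hle hz ?_
      rw [hradabc, hrad (x * y), Pool.Agent.U964.ML.rad_mul hbc, ← hrad, ← hrad]
      ring
  have hc0 : (0:ℝ) < c := by linarith
  have h2 := Real.rpow_le_rpow (Real.rpow_nonneg hc0.le _) key
    (by positivity : (0:ℝ) ≤ 1 / (1 - η))
  rw [← Real.rpow_mul hc0.le, mul_one_div_cancel h1η.ne', Real.rpow_one,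
    Real.mul_rpow (by linarith) (by positivity), ← Real.rpow_natCast, ← Real.rpow_mul hR0.le,
    hinv] at h2
  exact h2

end Pool.Agent.Results.MP_7aad9f_nt.OneExponentTriples
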